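import Pool.Agent.H9.WMC.Alg

set_option autoImplicit false

/-!
# WMC, module CON: the cone `T = 0` and the hypersurface `T = 1`
-/

namespace Pool.H9.WMC

open MvPolynomial

namespace CONaux

variable {k : Type} [Field k] {r a b : ℕ} (c : Fin r → Fin a → Fin b → k)

/-- the localisation of the polynomial ring at `T` -/
abbrev LT : Type := Localization.Away (tri c)

/-- `Cub c [t, 1/t]` -/
abbrev GM : Type := Localization.Away (Polynomial.X : Polynomial (Cub c))

/-- evaluation of `T` -/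
lemma aeval_tri {B : Type} [CommRing B] [Algebra k B] (t : B) (y : Fin r → B)
    (w : Fin a ⊕ Fin b → B) :
    aeval (Sum.elim (fun e => t * y e) w) (tri c) = t * aeval (Sum.elim y w) (tri c) := by
  unfold tri
  simp only [map_sum, map_mul, aeval_X, algHom_C, Sum.elim_inl, Sum.elim_inr, Finset.mul_sum]
  refine Finset.sum_congr rfl fun e _ => Finset.sum_congr rfl fun i _ =>
    Finset.sum_congr rfl fun j _ => ?_
  ring

/-- a homomorphism is the evaluation at the images of the variables -/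
lemma hom_tri {B : Type} [CommRing B] [Algebra k B]
    (f : MvPolynomial (Fin r ⊕ Fin a ⊕ Fin b) k →ₐ[k] B) (p : MvPolynomial (Fin r ⊕ Fin a ⊕ Fin b) k) :
    aeval (Sum.elim (fun e => f (X (Sum.inl e))) (fun w => f (X (Sum.inr w)))) p = f p := by
  have h : aeval (Sum.elim (fun e => f (X (Sum.inl e))) (fun w => f (X (Sum.inr w)))) = f := by
    apply algHom_ext
    rintro (e | w)
    · rw [aeval_X]; rfl
    · rw [aeval_X]; rfl
  rw [h]

/-- `Cub c [t] → Cub c [t, 1/t]` -/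
noncomputable def al : Polynomial (Cub c) →ₐ[k] GM c :=
  Algebra.algHom k (Polynomial (Cub c)) (GM c)

/-- `Cub c → Cub c [t, 1/t]` -/
noncomputable def ι : Cub c →ₐ[k] GM c := (al c).comp Polynomial.CAlgHom

/-- the coordinate of `Gm` -/
noncomputable def t : GM c := al c Polynomial.X

/-- polynomial ring to `Cub c [t, 1/t]`, not twisted -/
noncomputable def κ : MvPolynomial (Fin r ⊕ Fin a ⊕ Fin b) k →ₐ[k] GM c :=
  (ι c).comp (Ideal.Quotient.mkₐ k (Ideal.span {tri c - 1}))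

lemma mk_tri : Ideal.Quotient.mkₐ k (Ideal.span {tri c - 1}) (tri c) = 1 := by
  rw [← map_one (Ideal.Quotient.mkₐ k (Ideal.span {tri c - 1}))]
  exact Ideal.Quotient.eq.2 (Ideal.subset_span rfl)

lemma κ_tri : κ c (tri c) = 1 := by
  unfold κ
  rw [AlgHom.comp_apply, mk_tri, map_one]

/-- the twisted map -/
noncomputable def φ0 : MvPolynomial (Fin r ⊕ Fin a ⊕ Fin b) k →ₐ[k] GM c :=
  aeval (Sum.elim (fun e => t c * κ c (X (Sum.inl e))) (fun w => κ c (X (Sum.inr w))))

lemma φ0_tri : φ0 c (tri c) = t c := by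
  unfold φ0
  rw [aeval_tri, hom_tri, κ_tri, mul_one]

lemma t_unit : IsUnit (t c) := IsLocalization.Away.algebraMap_isUnit (Polynomial.X : Polynomial (Cub c))

lemma φ0_unit (y : Submonoid.powers (tri c)) : IsUnit (φ0 c y) := by
  obtain ⟨_, n, rfl⟩ := y
  simp only [map_pow, φ0_tri]
  exact (t_unit c).pow n

/-- the forward map -/
noncomputable def φ : LT c →ₐ[k] GM c :=
  IsLocalization.liftAlgHom (M := Submonoid.powers (tri c)) (f := φ0 c) (φ0_unit c)

lemma φ_alg (p : MvPolynomial (Fin r ⊕ Fin a ⊕ Fin b) k) :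
    φ c (algebraMap _ (LT c) p) = φ0 c p := by
  unfold φ
  rw [IsLocalization.liftAlgHom_apply]
  exact IsLocalization.lift_eq _ _

/-- polynomial ring to its localisation -/
noncomputable def lam : MvPolynomial (Fin r ⊕ Fin a ⊕ Fin b) k →ₐ[k] LT c :=
  Algebra.algHom k (MvPolynomial (Fin r ⊕ Fin a ⊕ Fin b) k) (LT c)

/-- the inverse of `T` -/
noncomputable def u : LT c := IsLocalization.Away.invSelf (tri c)

lemma mul_u : lam c (tri c) * u c = 1 := IsLocalization.Away.mul_invSelf (tri c)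

/-- the twisted map -/
noncomputable def ψ00 : MvPolynomial (Fin r ⊕ Fin a ⊕ Fin b) k →ₐ[k] LT c :=
  aeval (Sum.elim (fun e => u c * lam c (X (Sum.inl e))) (fun w => lam c (X (Sum.inr w))))

lemma ψ00_tri : ψ00 c (tri c) = 1 := by
  unfold ψ00
  rw [aeval_tri, hom_tri, mul_comm, mul_u]

/-- from the hypersurface -/
noncomputable def ψ0 : Cub c →ₐ[k] LT c :=
  Ideal.Quotient.liftₐ (Ideal.span {tri c - 1}) (ψ00 c) (by
    have h : Ideal.span {tri c - 1} ≤ RingHom.ker (ψ00 c) := by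
      rw [Ideal.span_le, Set.singleton_subset_iff, SetLike.mem_coe, RingHom.mem_ker, map_sub,
        map_one, ψ00_tri, sub_self]
    exact fun p hp => h hp)

lemma ψ0_mk (p : MvPolynomial (Fin r ⊕ Fin a ⊕ Fin b) k) :
    ψ0 c (Ideal.Quotient.mkₐ k (Ideal.span {tri c - 1}) p) = ψ00 c p := rfl

/-- from the polynomial ring over the hypersurface -/
noncomputable def ψ1 : Polynomial (Cub c) →ₐ[k] LT c :=
  Polynomial.eval₂AlgHom (ψ0 c) (lam c (tri c)) (fun _ => Commute.all _ _)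

lemma ψ1_X : ψ1 c Polynomial.X = lam c (tri c) := by
  unfold ψ1
  rw [Polynomial.eval₂AlgHom_apply, Polynomial.eval₂_X]

lemma ψ1_C (x : Cub c) : ψ1 c (Polynomial.C x) = ψ0 c x := by
  unfold ψ1
  rw [Polynomial.eval₂AlgHom_apply, Polynomial.eval₂_C]
  rfl

lemma ψ1_unit (y : Submonoid.powers (Polynomial.X : Polynomial (Cub c))) : IsUnit (ψ1 c y) := by
  obtain ⟨_, n, rfl⟩ := y
  simp only [map_pow, ψ1_X]
  exact (IsUnit.of_mul_eq_one _ (mul_u c)).pow n

/-- the backward map -/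
noncomputable def ψ : GM c →ₐ[k] LT c :=
  IsLocalization.liftAlgHom (M := Submonoid.powers (Polynomial.X : Polynomial (Cub c)))
    (f := ψ1 c) (ψ1_unit c)

lemma ψ_alg (p : Polynomial (Cub c)) : ψ c (al c p) = ψ1 c p := by
  unfold ψ
  rw [IsLocalization.liftAlgHom_apply]
  exact IsLocalization.lift_eq _ _

lemma ψ_t : ψ c (t c) = lam c (tri c) := by
  unfold t
  rw [ψ_alg, ψ1_X]

lemma ψ_κ (p : MvPolynomial (Fin r ⊕ Fin a ⊕ Fin b) k) : ψ c (κ c p) = ψ00 c p := by
  have h : κ c p = al c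
      (Polynomial.C (Ideal.Quotient.mkₐ k (Ideal.span {tri c - 1}) p)) := rfl
  rw [h, ψ_alg, ψ1_C, ψ0_mk]

lemma φ_lam (p : MvPolynomial (Fin r ⊕ Fin a ⊕ Fin b) k) : φ c (lam c p) = φ0 c p := φ_alg c p

lemma φ_u : φ c (u c) * t c = 1 := by
  have h := congrArg (φ c) (mul_u c)
  rw [map_mul, map_one, φ_lam, φ0_tri] at h
  rw [mul_comm, h]

lemma ψφ : (ψ c).comp (φ c) = AlgHom.id k (LT c) := by
  apply IsLocalization.algHom_ext (Submonoid.powers (tri c))
  apply algHom_ext
  intro i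
  show ψ c (φ c (lam c (X i))) = lam c (X i)
  rw [φ_lam]
  unfold φ0
  rw [aeval_X]
  rcases i with e | w
  · rw [Sum.elim_inl, map_mul, ψ_t, ψ_κ]
    unfold ψ00
    rw [aeval_X, Sum.elim_inl, ← mul_assoc, mul_u, one_mul]
  · rw [Sum.elim_inr, ψ_κ]
    unfold ψ00
    rw [aeval_X, Sum.elim_inr]

lemma φψ : (φ c).comp (ψ c) = AlgHom.id k (GM c) := by
  apply IsLocalization.algHom_ext (Submonoid.powers (Polynomial.X : Polynomial (Cub c)))
  apply Polynomial.algHom_ext'
  · apply Ideal.Quotient.algHom_ext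
    apply algHom_ext
    intro i
    show φ c (ψ c (κ c (X i))) = κ c (X i)
    rw [ψ_κ]
    unfold ψ00
    rw [aeval_X]
    rcases i with e | w
    · rw [Sum.elim_inl, map_mul, φ_lam]
      unfold φ0
      rw [aeval_X, Sum.elim_inl, ← mul_assoc, φ_u, one_mul]
    · rw [Sum.elim_inr, φ_lam]
      unfold φ0
      rw [aeval_X, Sum.elim_inr]
  · show φ c (ψ c (t c)) = t c
    rw [ψ_t, φ_lam, φ0_tri]

/-- `k[y, x, z]_T = Cub c [t, 1/t]` -/
noncomputable def equiv : LT c ≃ₐ[k] GM c := AlgEquiv.ofAlgHom (φ c) (ψ c) (φψ c) (ψφ c)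

end CONaux

theorem con_thm (h : LINStmt) : CONStmt := by
  intro k _ P hP hk r a b c
  have hR : P (MvPolynomial (Fin r ⊕ Fin a ⊕ Fin b) k) := (h P hP).mv k _ hk
  constructor
  · intro hc
    have h1 : P (CONaux.LT c) := hP.opn _ (tri c) hR hc
    exact hP.gm _ (hP.iso _ _ (CONaux.equiv c) h1)
  · intro hc
    have h1 : P (CONaux.GM c) := (h P hP).gm' _ hc
    exact hP.closed _ (tri c) hR (hP.iso _ _ (CONaux.equiv c).symm h1)

end Pool.H9.WMC
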