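import Pool.Agent.H9.WMC.Alg

set_option autoImplicit false

/-!
# WMC, module PAD: omitting the variables and forms which do not occur
-/

namespace Pool.H9.WMC

open MvPolynomial

namespace PADaux

variable {k : Type} [Field k]

/-- free extra variables -/
lemma extra {σ τ σ' : Type} (e : σ' ≃ τ ⊕ σ) (S : Set (MvPolynomial σ k))
    (S' : Set (MvPolynomial σ' k))
    (h : (rename e : MvPolynomial σ' k →ₐ[k] MvPolynomial (τ ⊕ σ) k) '' S' =
      (rename Sum.inr : MvPolynomial σ k →ₐ[k] MvPolynomial (τ ⊕ σ) k) '' S) :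
    Nonempty ((MvPolynomial σ' k ⧸ Ideal.span S') ≃ₐ[k]
      MvPolynomial τ (MvPolynomial σ k ⧸ Ideal.span S)) := by
  let F : MvPolynomial σ' k ≃ₐ[k] MvPolynomial τ (MvPolynomial σ k) :=
    (renameEquiv k e).trans (sumAlgEquiv k τ σ)
  have h1 : (Ideal.span S).map (C : MvPolynomial σ k →+* MvPolynomial τ (MvPolynomial σ k)) =
      (Ideal.span S').map (F : MvPolynomial σ' k →+* MvPolynomial τ (MvPolynomial σ k)) := by
    rw [Ideal.map_span, Ideal.map_span]
    congr 1
    have h2 : ∀ p : MvPolynomial σ k, sumAlgEquiv k τ σ (rename Sum.inr p) = C p := by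
      intro p
      exact congrArg (fun f : MvPolynomial σ k →ₐ[k] MvPolynomial τ (MvPolynomial σ k) => f p)
        (sumAlgEquiv_comp_rename_inr k τ σ)
    ext x
    constructor
    · rintro ⟨p, hp, rfl⟩
      have h3 : (rename Sum.inr p : MvPolynomial (τ ⊕ σ) k) ∈
          (rename e : MvPolynomial σ' k →ₐ[k] MvPolynomial (τ ⊕ σ) k) '' S' := by
        rw [h]
        exact ⟨p, hp, rfl⟩
      obtain ⟨q, hq, hqp⟩ := h3
      refine ⟨q, hq, ?_⟩
      show sumAlgEquiv k τ σ (rename e q) = C p
      rw [hqp, h2]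
    · rintro ⟨q, hq, rfl⟩
      have h3 : (rename e q : MvPolynomial (τ ⊕ σ) k) ∈
          (rename Sum.inr : MvPolynomial σ k →ₐ[k] MvPolynomial (τ ⊕ σ) k) '' S := by
        rw [← h]
        exact ⟨q, hq, rfl⟩
      obtain ⟨p, hp, hqp⟩ := h3
      refine ⟨p, hp, ?_⟩
      show C p = sumAlgEquiv k τ σ (rename e q)
      rw [← hqp, h2]
  exact ⟨(Ideal.quotientEquivAlg _ _ F h1).trans
    ((quotientEquivQuotientMvPolynomial (Ideal.span S)).restrictScalars k).symm⟩

/-- the permutation of the variables -/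
def vars (r s : ℕ) (X : Type) : Fin (r + s) ⊕ X ≃ Fin s ⊕ (Fin r ⊕ X) :=
  ((Equiv.sumCongr (finSumFinEquiv.symm.trans (Equiv.sumComm _ _)) (Equiv.refl X))).trans
    (Equiv.sumAssoc _ _ _)

lemma vars_inl (r s : ℕ) (X : Type) (e : Fin r) :
    vars r s X (Sum.inl (Fin.castAdd s e)) = Sum.inr (Sum.inl e) := by
  simp [vars]

lemma vars_inr (r s : ℕ) (X : Type) (x : X) :
    vars r s X (Sum.inr x) = Sum.inr (Sum.inr x) := by
  simp [vars]

lemma tri_rename (r a b s : ℕ) (c : Fin (r + s) → Fin a → Fin b → k)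
    (hc : ∀ (e : Fin (r + s)) i j, r ≤ (e : ℕ) → c e i j = 0) :
    rename (vars r s (Fin a ⊕ Fin b)) (tri c) =
      rename Sum.inr (tri (fun e : Fin r => c (Fin.castAdd s e))) := by
  unfold tri
  simp only [map_sum, map_mul, rename_C, rename_X]
  rw [Fin.sum_univ_add]
  rw [Finset.sum_eq_zero (s := (Finset.univ : Finset (Fin s))), add_zero]
  · refine Finset.sum_congr rfl fun e _ => Finset.sum_congr rfl fun i _ =>
      Finset.sum_congr rfl fun j _ => ?_
    rw [vars_inl, vars_inr, vars_inr]
  · intro e _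
    refine Finset.sum_eq_zero fun i _ => Finset.sum_eq_zero fun j _ => ?_
    rw [hc _ i j (by simp), C_0, zero_mul, zero_mul, zero_mul]

lemma bil_rename (r a b s : ℕ) (c : Fin (r + s) → Fin a → Fin b → k)
    (hc : ∀ (e : Fin (r + s)) i j, r ≤ (e : ℕ) → c e i j = 0) (i : Fin a) :
    rename (vars r s (Fin b)) (bil (fun (i : Fin a) (e : Fin (r + s)) (j : Fin b) => c e i j) i) =
      rename Sum.inr
        (bil (fun (i : Fin a) (e : Fin r) (j : Fin b) => c (Fin.castAdd s e) i j) i) := by
  unfold bil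
  simp only [map_sum, map_mul, rename_C, rename_X]
  rw [Fin.sum_univ_add]
  rw [Finset.sum_eq_zero (s := (Finset.univ : Finset (Fin s))), add_zero]
  · refine Finset.sum_congr rfl fun e _ => Finset.sum_congr rfl fun j _ => ?_
    rw [vars_inl, vars_inr]
  · intro e _
    refine Finset.sum_eq_zero fun j _ => ?_
    rw [hc _ i j (by simp), C_0, zero_mul, zero_mul]

/-- `P` does not see free variables -/
lemma iff_of_extra (h : LINStmt) (P : Pred k) (hP : Good P) {A B : Type} [CommRing A]
    [Algebra k A] [CommRing B] [Algebra k B] {τ : Type} [Finite τ]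
    (e : Nonempty (A ≃ₐ[k] MvPolynomial τ B)) : P A ↔ P B := by
  obtain ⟨e⟩ := e
  constructor
  · intro hA
    exact (h P hP).unmv B τ (hP.iso _ _ e hA)
  · intro hB
    exact hP.iso _ _ e.symm ((h P hP).mv B τ hB)

end PADaux

open PADaux

theorem pad_thm (h : LINStmt) : PADStmt := by
  intro k _ P hP r a b s c hc
  refine ⟨?_, ?_, ?_⟩
  · -- the extra forms vanish
    have h1 : Ideal.span (Set.range (bil c)) =
        Ideal.span (Set.range (bil (fun e : Fin r => c (Fin.castAdd s e)))) := by
      apply le_antisymm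
      · rw [Ideal.span_le]
        rintro _ ⟨e, rfl⟩
        rcases Nat.lt_or_ge (e : ℕ) r with he | he
        · apply Ideal.subset_span
          refine ⟨⟨e, he⟩, ?_⟩
          unfold bil
          rfl
        · have h2 : bil c e = 0 := by
            unfold bil
            refine Finset.sum_eq_zero fun i _ => Finset.sum_eq_zero fun j _ => ?_
            rw [hc e i j he, C_0, zero_mul, zero_mul]
          rw [h2]
          exact Ideal.zero_mem _
      · rw [Ideal.span_le]
        rintro _ ⟨e, rfl⟩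
        apply Ideal.subset_span
        exact ⟨Fin.castAdd s e, rfl⟩
    have e1 := Ideal.quotientEquivAlgOfEq k h1
    exact ⟨hP.iso _ _ e1, hP.iso _ _ e1.symm⟩
  · refine iff_of_extra h P hP (τ := Fin s) (extra (vars r s (Fin a ⊕ Fin b)) _ _ ?_)
    rw [Set.image_singleton, Set.image_singleton, map_sub, map_sub, map_one, map_one,
      tri_rename r a b s c hc]
  · refine iff_of_extra h P hP (τ := Fin s) (extra (vars r s (Fin b)) _ _ ?_)
    rw [← Set.range_comp, ← Set.range_comp]
    congr 1
    funext i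
    exact bil_rename r a b s c hc i

end Pool.H9.WMC
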